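import Pool.Agent.CyDes.Defs

set_option autoImplicit false
set_option linter.unusedSectionVars false

namespace Pool.Agent.CyDes

open Finset

variable {n : ℕ} [NeZero n]

theorem sub_val (t : ZMod n) (j : ℕ) (hj : j < n) : (t - (t - (j : ZMod n))).val = j := by
  have : t - (t - (j : ZMod n)) = (j : ZMod n) := by ring
  rw [this, ZMod.val_natCast_of_lt hj]

theorem exists_sub (t k : ZMod n) : ∃ j : ℕ, j < n ∧ k = t - (j : ZMod n) := by
  refine ⟨(t - k).val, ZMod.val_lt _, ?_⟩
  rw [ZMod.natCast_zmod_val]; ring

theorem exists_add (t k : ZMod n) : ∃ j : ℕ, j < n ∧ k = t + (j : ZMod n) := by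
  refine ⟨(k - t).val, ZMod.val_lt _, ?_⟩
  rw [ZMod.natCast_zmod_val]; ring

theorem mem_cov {ε : ZMod n → ℕ} {t : ZMod n} {j : ℕ} (hj : j < n) :
    t - (j : ZMod n) ∈ cov ε t ↔ j < ε (t - (j : ZMod n)) := by
  simp only [cov, mem_filter, mem_univ, true_and]
  rw [sub_val t j hj]

theorem cov_down {ε : ZMod n → ℕ} (hw : WeaklyMonotone n ε) {t : ZMod n} {j : ℕ}
    (hj : j + 1 < n) (h : t - ((j + 1 : ℕ) : ZMod n) ∈ cov ε t) : t - (j : ZMod n) ∈ cov ε t := by
  rw [mem_cov hj] at h
  rw [mem_cov (by omega)]
  have := hw (t - ((j + 1 : ℕ) : ZMod n))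
  have e : t - ((j + 1 : ℕ) : ZMod n) + 1 = t - (j : ZMod n) := by push_cast; ring
  rw [e] at this
  omega

/-- `cov ε t` is an interval ending at `t`. -/
theorem cov_iff {ε : ZMod n → ℕ} (hw : WeaklyMonotone n ε) (t : ZMod n) {j : ℕ} (hj : j < n) :
    t - (j : ZMod n) ∈ cov ε t ↔ j < len ε t := by
  classical
  -- the set of good `j` is downward closed in `range n`
  let J : Finset ℕ := (range n).filter (fun j => t - (j : ZMod n) ∈ cov ε t)
  have hdown : ∀ i j : ℕ, i ≤ j → j ∈ J → i ∈ J := by
    intro i j hij hj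
    induction j with
    | zero => have : i = 0 := by omega
              subst this; exact hj
    | succ j ih =>
      by_cases h : i = j + 1
      · subst h; exact hj
      · apply ih (by omega)
        simp only [J, mem_filter, mem_range] at hj ⊢
        exact ⟨by omega, cov_down hw hj.1 hj.2⟩
  have hcard : J.card = len ε t := by
    unfold len
    apply Finset.card_bij (fun (j : ℕ) _ => t - (j : ZMod n))
    · intro j hj
      simp only [J, mem_filter] at hj
      exact hj.2
    · intro i hi j hj hij
      simp only [J, mem_filter, mem_range] at hi hj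
      have := sub_val t i hi.1
      rw [hij, sub_val t j hj.1] at this
      exact this.symm
    · intro k hk
      obtain ⟨j, hj, rfl⟩ := exists_sub t k
      exact ⟨j, by simp only [J, mem_filter, mem_range]; exact ⟨hj, hk⟩, rfl⟩
  have hJ : J = range J.card := by
    ext i
    simp only [mem_range]
    constructor
    · intro hi
      have : range (i + 1) ⊆ J := fun x hx => hdown x i (by simp at hx; omega) hi
      have := card_le_card this
      rw [card_range] at this
      omega
    · intro hi
      by_contra hni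
      have : J ⊆ range i := fun x hx => by
        rw [mem_range]
        by_contra hxi
        exact hni (hdown i x (by omega) hx)
      have := card_le_card this
      rw [card_range] at this
      omega
  rw [← hcard]
  have : j ∈ J ↔ j < J.card := by conv_lhs => rw [hJ]
                                  simp
  rw [← this]
  simp only [J, mem_filter, mem_range]
  exact ⟨fun h => ⟨hj, h⟩, fun h => h.2⟩

theorem len_pos {ε : ZMod n → ℕ} (hw : WeaklyMonotone n ε) (hε : ∀ t, 1 ≤ ε t) (hn : 0 < n)
    (t : ZMod n) : 1 ≤ len ε t := by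
  have h := (cov_iff hw t hn).1 (by rw [mem_cov hn]; have := hε (t - ((0 : ℕ) : ZMod n)); omega)
  omega

theorem len_lt {ε : ZMod n → ℕ} (hw : WeaklyMonotone n ε) (hε : ∀ t, ε t ≤ n - 1) (hn : 0 < n)
    (t : ZMod n) : len ε t < n := by
  by_contra h
  have hj : n - 1 < n := by omega
  have := (cov_iff hw t hj).2 (by omega)
  rw [mem_cov hj] at this
  have h2 := hε (t - ((n - 1 : ℕ) : ZMod n))
  omega

theorem sum_cov {ε : ZMod n → ℕ} (hw : WeaklyMonotone n ε) (hε : ∀ t, ε t ≤ n - 1) (hn : 0 < n)
    (t : ZMod n) (z : ZMod n → ℝ) :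
    ∑ k ∈ cov ε t, z k = ∑ j ∈ range (len ε t), z (t - (j : ZMod n)) := by
  have hl := len_lt hw hε hn t
  symm
  apply Finset.sum_bij (fun (j : ℕ) _ => t - (j : ZMod n))
  · intro j hj
    rw [mem_range] at hj
    exact (cov_iff hw t (by omega)).2 hj
  · intro i hi j hj hij
    rw [mem_range] at hi hj
    have := sub_val t i (by omega)
    rw [hij, sub_val t j (by omega)] at this
    exact this.symm
  · intro k hk
    obtain ⟨j, hj, rfl⟩ := exists_sub t k
    exact ⟨j, by rw [mem_range]; exact (cov_iff hw t hj).1 hk, rfl⟩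
  · intro j _
    rfl

/-- Telescoping of the start-up constraints. -/
theorem tele {y z : ZMod n → ℝ} (h : ∀ t, 0 ≤ z t - (y t - y (t - 1))) (t : ZMod n) (m : ℕ) :
    y t - y (t - (m : ZMod n)) ≤ ∑ j ∈ range m, z (t - (j : ZMod n)) := by
  induction m with
  | zero => simp
  | succ m ih =>
    rw [sum_range_succ]
    have := h (t - (m : ZMod n))
    have e : t - (m : ZMod n) - 1 = t - ((m + 1 : ℕ) : ZMod n) := by push_cast; ring
    rw [e] at this
    linarith

end Pool.Agent.CyDes
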