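import Mathlib

set_option autoImplicit false
set_option linter.unusedVariables false

namespace Pool.Agent.CyDes

open Finset

/-- The ambient space of pairs `(y, z)`, with time periods indexed by `ZMod n`. -/
abbrev E (n : ℕ) : Type := (ZMod n → ℝ) × (ZMod n → ℝ)

/-- The set `Z(n, α, β, γ, δ)` of on/off schedules, as in the problem. -/
def Z (n : ℕ) [NeZero n] (α β γ δ : ZMod n → ℕ) : Set (E n) :=
  {p | (∀ t, (p.1 t = 0 ∨ p.1 t = 1) ∧ (p.2 t = 0 ∨ p.2 t = 1)) ∧
    (1 ≤ ∑ t, p.1 t ∧ ∑ t, p.1 t ≤ (n : ℝ) - 1) ∧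
    (∀ t, p.2 t = 1 ↔ (p.1 (t - 1) = 0 ∧ p.1 t = 1)) ∧
    (∀ t, p.1 t - p.1 (t - 1) = 1 →
      (∀ i : ℕ, i < α t → p.1 (t + (i : ZMod n)) = 1) ∧
      ∃ i : ℕ, α t ≤ i ∧ i ≤ β t ∧ p.1 (t + (i : ZMod n)) = 0) ∧
    (∀ t, p.1 (t - 1) - p.1 t = 1 →
      (∀ i : ℕ, i < γ t → p.1 (t + (i : ZMod n)) = 0) ∧
      ∃ i : ℕ, γ t ≤ i ∧ i ≤ δ t ∧ p.1 (t + (i : ZMod n)) = 1)}

/-- The standing assumptions `1 ≤ lo t ≤ hi t ≤ n - 1`. -/
def Bounds (n : ℕ) (lo hi : ZMod n → ℕ) : Prop :=
  ∀ t, 1 ≤ lo t ∧ lo t ≤ hi t ∧ hi t ≤ n - 1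

/-- Weak monotonicity `ε (t + 1) ≥ ε t - 1` of a parameter vector. -/
def WeaklyMonotone (n : ℕ) (ε : ZMod n → ℕ) : Prop :=
  ∀ t, ε t ≤ ε (t + 1) + 1

variable {n : ℕ} [NeZero n]

/-- The periods `k` with `t ∈ [k, k + ε k - 1]`; this is the cyclic interval `[s(ε,t), t]`. -/
def cov (ε : ZMod n → ℕ) (t : ZMod n) : Finset (ZMod n) :=
  univ.filter (fun k => (t - k).val < ε k)

/-- The number of elements of `[s(ε,t), t]`. -/
def len (ε : ZMod n → ℕ) (t : ZMod n) : ℕ := (cov ε t).card

/-- The six kinds of constraints of `P`. -/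
inductive Kind
  | start | nonneg | onMin | onMax | offMin | offMax

/-- A constraint of `P`: a kind and a period. -/
abbrev Con (n : ℕ) : Type := Kind × ZMod n

/-- The slack of a constraint of `P` at the point `p = (y, z)`; here
`t - len ε t = s(ε,t) - 1`. -/
def slack (α β γ δ : ZMod n → ℕ) (p : E n) : Con n → ℝ
  | (.start, t) => p.2 t - (p.1 t - p.1 (t - 1))
  | (.nonneg, t) => p.2 t
  | (.onMin, t) => p.1 t - ∑ k ∈ cov α t, p.2 k
  | (.onMax, t) => ∑ k ∈ cov β t, p.2 k - p.1 t
  | (.offMin, t) => 1 - p.1 (t - (len γ t : ZMod n)) - ∑ k ∈ cov γ t, p.2 k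
  | (.offMax, t) => ∑ k ∈ cov δ t, p.2 k - (1 - p.1 (t - (len δ t : ZMod n)))

/-- The nodes of the constraint graph: `(false, t)` and `(true, t)` for each period `t`. -/
abbrev Node (n : ℕ) : Type := Bool × ZMod n

/-- First node of a constraint. -/
def src (α β γ δ : ZMod n → ℕ) : Con n → Node n
  | (.start, t) => (true, t)
  | (.nonneg, t) => (false, t)
  | (.onMin, t) => (false, t - (len α t : ZMod n))
  | (.onMax, t) => (true, t)
  | (.offMin, t) => (true, t - (len γ t : ZMod n))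
  | (.offMax, t) => (false, t)

/-- Second node of a constraint. -/
def dst (α β γ δ : ZMod n → ℕ) : Con n → Node n
  | (.start, t) => (true, t - 1)
  | (.nonneg, t) => (false, t - 1)
  | (.onMin, t) => (true, t)
  | (.onMax, t) => (false, t - (len β t : ZMod n))
  | (.offMin, t) => (false, t)
  | (.offMax, t) => (true, t - (len δ t : ZMod n))

/-- The shift in time from the first to the second node of a constraint. -/
def shift (α β γ δ : ZMod n → ℕ) : Con n → ℤ
  | (.start, _) => -1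
  | (.nonneg, _) => -1
  | (.onMin, t) => len α t
  | (.onMax, t) => -(len β t : ℤ)
  | (.offMin, t) => len γ t
  | (.offMax, t) => -(len δ t : ℤ)

/-- The constant of a constraint. -/
def cost : Con n → ℤ
  | (.offMin, _) => 1
  | (.offMax, _) => -1
  | _ => 0

/-- Where a step begins: `(e, true)` runs through the constraint `e` forwards, `(e, false)`
backwards. -/
def tail (α β γ δ : ZMod n → ℕ) (x : Con n × Bool) : Node n :=
  if x.2 then src α β γ δ x.1 else dst α β γ δ x.1

/-- Where a step ends. -/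
def head (α β γ δ : ZMod n → ℕ) (x : Con n × Bool) : Node n :=
  if x.2 then dst α β γ δ x.1 else src α β γ δ x.1

/-- `C` is a simple cycle of the constraint graph: a nonempty list of steps, each of them begins
where the one before ends (cyclically), and no node is visited twice. -/
def IsCycle (α β γ δ : ZMod n → ℕ) (C : List (Con n × Bool)) : Prop :=
  C ≠ [] ∧ (C.map (tail α β γ δ)).Nodup ∧
    C.map (head α β γ δ) = (C.map (tail α β γ δ)).rotate 1

/-- The sum of `f` over the forward steps minus the sum of `f` over the backward steps. -/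
def net (f : Con n → ℤ) (C : List (Con n × Bool)) : ℤ :=
  (C.map fun x => if x.2 then f x.1 else -f x.1).sum

/-- The sum of the slacks of the constraints used backwards by `C`. -/
def back (α β γ δ : ZMod n → ℕ) (p : E n) (C : List (Con n × Bool)) : ℝ :=
  (C.map fun x => if x.2 then 0 else slack α β γ δ p x.1).sum

/-- The cycle inequality of `C` at the point `p = (y, z)`. With the winding number `a` of `C`
(`a * n = - net shift C`), `b = - net cost C` and `b = a k + r`, `0 ≤ r < a`, it says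
`back p C ≥ r (k + 1 - ∑ z)`. -/
def CycleIneq (α β γ δ : ZMod n → ℕ) (p : E n) (C : List (Con n × Bool)) : Prop :=
  ∀ a b : ℤ, 2 ≤ a → a * n = -net (shift α β γ δ) C → b = -net cost C →
    ((b % a : ℤ) : ℝ) * (((b / a : ℤ) : ℝ) + 1 - ∑ t, p.2 t) ≤ back α β γ δ p C

end Pool.Agent.CyDes
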