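import Pool.Agent.CyDes.Cov

set_option autoImplicit false
set_option linter.unusedSectionVars false

namespace Pool.Agent.CyDes

open Finset

variable {n : ℕ} [NeZero n]

/-- The point with potentials `π` and `∑ z = K`. -/
noncomputable def Q (π : Node n → ℝ) (K : ℝ) : E n :=
  (fun t => π (false, t) - π (true, t), fun t => π (false, t) - π (false, t - 1) + K / n)

theorem Q_sum (π : Node n → ℝ) (K : ℝ) : ∑ t, (Q π K).2 t = K := by
  have hn : (n : ℝ) ≠ 0 := by exact_mod_cast NeZero.ne n
  have h : ∑ t : ZMod n, π (false, t - 1) = ∑ t : ZMod n, π (false, t) :=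
    Equiv.sum_comp (Equiv.subRight (1 : ZMod n)) (fun t => π (false, t))
  simp only [Q, sum_add_distrib, sum_sub_distrib, h, sub_self, sum_const, card_univ, ZMod.card,
    nsmul_eq_mul, zero_add]
  field_simp

theorem Q_window (π : Node n → ℝ) (K : ℝ) (t : ZMod n) (m : ℕ) :
    ∑ j ∈ range m, (Q π K).2 (t - (j : ZMod n)) =
      π (false, t) - π (false, t - (m : ZMod n)) + K * m / n := by
  induction m with
  | zero => simp
  | succ m ih =>
    rw [sum_range_succ, ih]
    have e : t - (m : ZMod n) - 1 = t - ((m + 1 : ℕ) : ZMod n) := by push_cast; ring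
    simp only [Q, e]
    push_cast
    ring

theorem slack_Q {α β γ δ : ZMod n → ℕ} (hn : 2 ≤ n)
    (hab : Bounds n α β) (hgd : Bounds n γ δ) (ma : WeaklyMonotone n α)
    (mb : WeaklyMonotone n β) (mg : WeaklyMonotone n γ) (md : WeaklyMonotone n δ)
    (π : Node n → ℝ) (K : ℝ) (e : Con n) :
    slack α β γ δ (Q π K) e =
      cost e - K * (shift α β γ δ e : ℤ) / n - (π (dst α β γ δ e) - π (src α β γ δ e)) := by
  have hn0 : 0 < n := by omega
  obtain ⟨k, t⟩ := e
  cases k with
  | start =>
    show (Q π K).2 t - ((Q π K).1 t - (Q π K).1 (t - 1)) = _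
    simp only [Q, cost, shift, dst, src]; push_cast; ring
  | nonneg =>
    show (Q π K).2 t = _
    simp only [Q, cost, shift, dst, src]; push_cast; ring
  | onMin =>
    show (Q π K).1 t - ∑ k ∈ cov α t, (Q π K).2 k = _
    rw [sum_cov ma (fun t => (hab t).2.1.trans (hab t).2.2) hn0, Q_window]
    simp only [Q, cost, shift, dst, src]; push_cast; ring
  | onMax =>
    show ∑ k ∈ cov β t, (Q π K).2 k - (Q π K).1 t = _
    rw [sum_cov mb (fun t => (hab t).2.2) hn0, Q_window]
    simp only [Q, cost, shift, dst, src]; push_cast; ring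
  | offMin =>
    show 1 - (Q π K).1 (t - (len γ t : ZMod n)) - ∑ k ∈ cov γ t, (Q π K).2 k = _
    rw [sum_cov mg (fun t => (hgd t).2.1.trans (hgd t).2.2) hn0, Q_window]
    simp only [Q, cost, shift, dst, src]; push_cast; ring
  | offMax =>
    show ∑ k ∈ cov δ t, (Q π K).2 k - (1 - (Q π K).1 (t - (len δ t : ZMod n))) = _
    rw [sum_cov md (fun t => (hgd t).2.2) hn0, Q_window]
    simp only [Q, cost, shift, dst, src]; push_cast; ring

theorem val_sub_one (hn : 2 ≤ n) (t : ZMod n) :
    (t ≠ 0 ∧ t.val = (t - 1).val + 1) ∨ (t = 0 ∧ (t - 1).val = n - 1) := by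
  have : Fact (1 < n) := ⟨by omega⟩
  by_cases h : t = 0
  · right
    refine ⟨h, ?_⟩
    rw [h, zero_sub]
    obtain ⟨m, rfl⟩ : ∃ m, n = m + 1 := ⟨n - 1, by omega⟩
    rw [ZMod.val_neg_one]; rfl
  · left
    refine ⟨h, ?_⟩
    have h1 : t.val ≠ 0 := fun h0 => h ((ZMod.val_eq_zero t).1 h0)
    have hlt := ZMod.val_lt t
    have e : t - 1 = ((t.val - 1 : ℕ) : ZMod n) := by
      rw [Nat.cast_sub (by omega), ZMod.natCast_zmod_val]; simp
    rw [e, ZMod.val_natCast_of_lt (by omega)]
    omega

theorem Q_surj (hn : 2 ≤ n) (p : E n) : ∃ π : Node n → ℝ, p = Q π (∑ t, p.2 t) := by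
  have hn' : (n : ℝ) ≠ 0 := by exact_mod_cast NeZero.ne n
  set K := ∑ t, p.2 t with hK
  -- partial sums
  let S : ℕ → ℝ := fun m => ∑ j ∈ range m, p.2 ((j + 1 : ℕ) : ZMod n)
  have hSn : S n = K := by
    rw [hK]
    apply Finset.sum_bij (fun (j : ℕ) _ => ((j + 1 : ℕ) : ZMod n))
    · intro j _; exact mem_univ _
    · intro i hi j hj hij
      rw [mem_range] at hi hj
      have e : ((i : ℕ) : ZMod n) = ((j : ℕ) : ZMod n) := by
        have := hij; push_cast at this; exact add_right_cancel this
      have := congrArg ZMod.val e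
      rwa [ZMod.val_natCast_of_lt hi, ZMod.val_natCast_of_lt hj] at this
    · intro k _
      refine ⟨(k - 1).val, mem_range.2 (ZMod.val_lt _), ?_⟩
      push_cast
      rw [ZMod.natCast_zmod_val]; ring
    · intro j _; rfl
  let π : Node n → ℝ := fun v =>
    if v.1 then S v.2.val - K * v.2.val / n - p.1 v.2 else S v.2.val - K * v.2.val / n
  have hπf : ∀ t, π (false, t) = S t.val - K * t.val / n := fun t => by simp [π]
  have hπt : ∀ t, π (true, t) = S t.val - K * t.val / n - p.1 t := fun t => by simp [π]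
  refine ⟨π, Prod.ext (funext fun t => ?_) (funext fun t => ?_)⟩
  · show p.1 t = π (false, t) - π (true, t)
    rw [hπf, hπt]; ring
  · show p.2 t = π (false, t) - π (false, t - 1) + K / n
    rw [hπf, hπf]
    rcases val_sub_one hn t with ⟨h0, hv⟩ | ⟨h0, hv⟩
    · have : S t.val = S (t - 1).val + p.2 t := by
        rw [hv]
        simp only [S, sum_range_succ]
        congr 2
        push_cast
        rw [ZMod.natCast_zmod_val]; ring_nf
      rw [this, hv]
      push_cast
      ring
    · rw [hv, h0]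
      simp only [ZMod.val_zero]
      have h1 : S n = S (n - 1) + p.2 0 := by
        conv_lhs => rw [show n = (n - 1) + 1 by omega]
        simp only [S, sum_range_succ]
        congr 2
        rw [show n - 1 + 1 = n by omega]
        simp
      have h2 : S 0 = 0 := by simp [S]
      rw [h2]
      have h3 : ((n - 1 : ℕ) : ℝ) = n - 1 := by
        rw [Nat.cast_sub (by omega)]; simp
      rw [h3]
      rw [hSn] at h1
      have : S (n - 1) = K - p.2 0 := by linarith
      rw [this]
      field_simp
      ring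

theorem Q_comb (a b : ℝ) (π π' : Node n → ℝ) (K K' : ℝ) :
    a • Q π K + b • Q π' K' = Q (fun v => a * π v + b * π' v) (a * K + b * K') := by
  refine Prod.ext (funext fun t => ?_) (funext fun t => ?_)
  · simp only [Q, Prod.fst_add, Prod.smul_fst, Pi.add_apply, Pi.smul_apply, smul_eq_mul]; ring
  · simp only [Q, Prod.snd_add, Prod.smul_snd, Pi.add_apply, Pi.smul_apply, smul_eq_mul]; ring

end Pool.Agent.CyDes
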