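import Mathlib

set_option autoImplicit false

namespace Pool.Agent.CyDes

/-- Existence of potentials: if no simple cycle has negative weight, the system of difference
constraints has a solution. -/
theorem exists_potential {V A : Type*} [Finite V] [Finite A] (s d : A → V) (w : A → ℝ)
    (h : ∀ C : List A, C ≠ [] → (C.map s).Nodup → C.map d = (C.map s).rotate 1 →
      0 ≤ (C.map w).sum) :
    ∃ π : V → ℝ, ∀ a, π (d a) - π (s a) ≤ w a := by
  classical
  have := Fintype.ofFinite V
  have := Fintype.ofFinite A
  -- walks ending at `v` without repeated nodes
  let S : V → Set (List A) := fun v => {l | l.map d = (l.map s ++ [v]).tail ∧ (l.map s ++ [v]).Nodup}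
  have hfin : ∀ v, (S v).Finite := by
    intro v
    refine (List.finite_length_le A (Fintype.card V)).subset ?_
    rintro l ⟨-, h2⟩
    have := h2.length_le_card
    simp only [List.length_append, List.length_map, List.length_singleton] at this
    simp only [Set.mem_ofPred_eq]
    omega
  have hne : ∀ v, (S v).Nonempty := fun v => ⟨[], by simp [S]⟩
  have hmin : ∀ v, ∃ l ∈ S v, ∀ l' ∈ S v, (l.map w).sum ≤ (l'.map w).sum := fun v => by
    obtain ⟨l, hl, hl'⟩ := Set.exists_min_image (S v) (fun l => (l.map w).sum) (hfin v) (hne v)
    exact ⟨l, hl, hl'⟩
  choose L hL hLmin using hmin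
  refine ⟨fun v => ((L v).map w).sum, fun a => ?_⟩
  obtain ⟨h1, h2⟩ := hL (s a)
  have goal : ((L (d a)).map w).sum ≤ ((L (s a)).map w).sum + w a := by
    by_cases hd : d a ∈ (L (s a)).map s ++ [s a]
    · -- cut the cycle
      have hsplit : ∃ l1 l2 : List A, l2 ≠ [] ∧ L (s a) ++ [a] = l1 ++ l2 ∧
          (l2.map s).head? = some (d a) := by
        have hmem : d a ∈ (L (s a) ++ [a]).map s := by simpa using hd
        obtain ⟨b, hb, hbd⟩ := List.mem_map.1 hmem
        obtain ⟨l1, l2, hl⟩ := List.append_of_mem hb
        exact ⟨l1, b :: l2, by simp, hl, by simp [hbd]⟩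
      obtain ⟨l1, l2, hl2, hl, hhead⟩ := hsplit
      have hnd : ((l1 ++ l2).map s).Nodup := by
        rw [← hl]; simpa using h2
      have hdl : (l1 ++ l2).map d = ((l1 ++ l2).map s).tail ++ [d a] := by
        rw [← hl]
        simp only [List.map_append, List.map_cons, List.map_nil]
        rw [h1]
      obtain ⟨b, l2', rfl⟩ : ∃ b l2', l2 = b :: l2' := by
        cases l2 with
        | nil => exact absurd rfl hl2
        | cons b l2' => exact ⟨b, l2', rfl⟩
      have hb : s b = d a := by simpa using hhead
      -- the first part is a walk to `d a`
      have hlen : ∀ (l1 : List A), (l1 ++ b :: l2').map d = ((l1 ++ b :: l2').map s).tail ++ [d a] →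
          l1.map d = (l1.map s ++ [d a]).tail ∧ (b :: l2').map d = (l2'.map s) ++ [d a] := by
        intro l1 hl1
        cases l1 with
        | nil => simpa using hl1
        | cons c l1 =>
          have e : ((c :: l1) ++ b :: l2').map d = (l1.map s ++ [d a]) ++ (l2'.map s ++ [d a]) := by
            rw [hl1]; simp [hb]
          rw [List.map_append] at e
          have := List.append_inj e (by simp)
          exact ⟨by simpa using this.1, this.2⟩
      obtain ⟨hw1, hw2⟩ := hlen l1 hdl
      have hm1 : l1 ∈ S (d a) := by
        refine ⟨hw1, ?_⟩
        rw [← hb]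
        have : (l1.map s ++ [s b]).Sublist ((l1 ++ b :: l2').map s) := by
          simp only [List.map_append, List.map_cons]
          exact List.Sublist.append (List.Sublist.refl _) (by simp)
        exact this.nodup hnd
      have hc : 0 ≤ ((b :: l2').map w).sum := by
        refine h _ (by simp) ?_ ?_
        · have : ((b :: l2').map s).Sublist ((l1 ++ b :: l2').map s) := by
            simp only [List.map_append]
            exact List.sublist_append_right _ _
          exact this.nodup hnd
        · rw [hw2]
          simp [hb]
      have hsum : ((L (s a)).map w).sum + w a = (l1.map w).sum + ((b :: l2').map w).sum := by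
        have := congrArg (fun l => (List.map w l).sum) hl
        simpa using this
      have := hLmin (d a) l1 hm1
      linarith
    · have hm : L (s a) ++ [a] ∈ S (d a) := by
        constructor
        · simp only [List.map_append, List.map_cons, List.map_nil]
          rw [h1]
          cases L (s a) with
          | nil => simp
          | cons c l => simp
        · have : ((L (s a) ++ [a]).map s ++ [d a]) = (L (s a)).map s ++ [s a] ++ [d a] := by simp
          rw [this, List.nodup_append]
          refine ⟨h2, by simp, ?_⟩
          intro x hx y hy
          simp only [List.mem_singleton] at hy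
          subst hy
          rintro rfl
          exact hd hx
      have := hLmin (d a) _ hm
      simpa using this
  show ((L (d a)).map w).sum - ((L (s a)).map w).sum ≤ w a
  linarith

end Pool.Agent.CyDes
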