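import Pool.Agent.CyDes.Cov

set_option autoImplicit false

namespace Pool.Agent.CyDes

open Finset

variable {n : ℕ} [NeZero n]

/-- Every schedule satisfies the constraints of `P`. -/
theorem slack_nonneg_of_mem {α β γ δ : ZMod n → ℕ} (hn : 2 ≤ n)
    (hab : Bounds n α β) (hgd : Bounds n γ δ) (ma : WeaklyMonotone n α)
    (mb : WeaklyMonotone n β) (mg : WeaklyMonotone n γ) (md : WeaklyMonotone n δ)
    {p : E n} (hp : p ∈ Z n α β γ δ) (e : Con n) : 0 ≤ slack α β γ δ p e := by
  obtain ⟨h01, ⟨hs1, hs2⟩, h2, h3, h4⟩ := hp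
  have hn0 : 0 < n := by omega
  have hy0 : ∀ t, 0 ≤ p.1 t := fun t => by rcases (h01 t).1 with h | h <;> rw [h]; norm_num
  have hy1 : ∀ t, p.1 t ≤ 1 := fun t => by rcases (h01 t).1 with h | h <;> rw [h]; norm_num
  have hz0 : ∀ t, 0 ≤ p.2 t := fun t => by rcases (h01 t).2 with h | h <;> rw [h]; norm_num
  have hyne : ∀ t, p.1 t ≠ 1 → p.1 t = 0 := fun t h => by
    rcases (h01 t).1 with h' | h'
    · exact h'
    · exact absurd h' h
  have hyne' : ∀ t, p.1 t ≠ 0 → p.1 t = 1 := fun t h => by
    rcases (h01 t).1 with h' | h'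
    · exact absurd h' h
    · exact h'
  have hzne : ∀ t, p.2 t ≠ 1 → p.2 t = 0 := fun t h => by
    rcases (h01 t).2 with h' | h'
    · exact h'
    · exact absurd h' h
  have sub_succ : ∀ (t : ZMod n) (j : ℕ), t - (j : ZMod n) - 1 = t - ((j + 1 : ℕ) : ZMod n) := by
    intro t j; push_cast; ring
  have sub_add : ∀ (t : ZMod n) (i j : ℕ), j ≤ i →
      t - (i : ZMod n) + (j : ZMod n) = t - ((i - j : ℕ) : ZMod n) := by
    intro t i j hij; rw [Nat.cast_sub hij]; ring
  -- an on-start at `t - i` with `i < α` keeps `y = 1` up to `t`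
  have on_run : ∀ (t : ZMod n) (i : ℕ), p.2 (t - (i : ZMod n)) = 1 → i < α (t - (i : ZMod n)) →
      ∀ j, j ≤ i → p.1 (t - (j : ZMod n)) = 1 := by
    intro t i hz hi j hj
    obtain ⟨ha, hb⟩ := (h2 _).1 hz
    have := (h3 (t - (i : ZMod n)) (by rw [ha, hb]; norm_num)).1 (i - j) (by omega)
    rwa [sub_add t i (i - j) (by omega), show i - (i - j) = j by omega] at this
  have off_run : ∀ (t : ZMod n) (i : ℕ), p.1 (t - (i : ZMod n) - 1) = 1 →
      p.1 (t - (i : ZMod n)) = 0 → i < γ (t - (i : ZMod n)) →
      ∀ j, j ≤ i → p.1 (t - (j : ZMod n)) = 0 := by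
    intro t i ha hb hi j hj
    have := (h4 (t - (i : ZMod n)) (by rw [ha, hb]; norm_num)).1 (i - j) (by omega)
    rwa [sub_add t i (i - j) (by omega), show i - (i - j) = j by omega] at this
  obtain ⟨k, t⟩ := e
  cases k with
  | start =>
    show 0 ≤ p.2 t - (p.1 t - p.1 (t - 1))
    rcases (h01 t).1 with h | h
    · rw [h]; have := hy0 (t - 1); have := hz0 t; linarith
    · rcases (h01 (t - 1)).1 with h' | h'
      · have := (h2 t).2 ⟨h', h⟩
        rw [h, h', this]; norm_num
      · rw [h, h']; have := hz0 t; linarith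
  | nonneg => exact hz0 t
  | onMin =>
    show 0 ≤ p.1 t - ∑ k ∈ cov α t, p.2 k
    rw [sum_cov ma (fun t => (hab t).2.1.trans (hab t).2.2) hn0]
    set L := len α t with hL
    have hLn : L < n := len_lt ma (fun t => (hab t).2.1.trans (hab t).2.2) hn0 t
    have hlt : ∀ j, j < L → j < α (t - (j : ZMod n)) := fun j hj => by
      have := (cov_iff ma t (show j < n by omega)).2 hj
      rwa [mem_cov (by omega)] at this
    by_cases hex : ∃ j, j < L ∧ p.2 (t - (j : ZMod n)) = 1
    · obtain ⟨j, hj, hzj⟩ := hex
      have huniq : ∀ i, i < L → i ≠ j → p.2 (t - (i : ZMod n)) = 0 := by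
        intro i hi hij
        apply hzne
        intro hzi
        rcases Nat.lt_or_gt_of_ne hij with h | h
        · have := on_run t j hzj (hlt j hj) (i + 1) (by omega)
          rw [← sub_succ, ((h2 _).1 hzi).1] at this
          norm_num at this
        · have := on_run t i hzi (hlt i hi) (j + 1) (by omega)
          rw [← sub_succ, ((h2 _).1 hzj).1] at this
          norm_num at this
      rw [sum_eq_single_of_mem j (mem_range.2 hj)
        (fun i hi hij => huniq i (mem_range.1 hi) hij), hzj]
      have := on_run t j hzj (hlt j hj) 0 (by omega)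
      simp only [Nat.cast_zero, sub_zero] at this
      rw [this]; norm_num
    · push Not at hex
      rw [sum_eq_zero (fun j hj => hzne _ (hex j (mem_range.1 hj)))]
      have := hy0 t; linarith
  | onMax =>
    show 0 ≤ ∑ k ∈ cov β t, p.2 k - p.1 t
    rw [sum_cov mb (fun t => (hab t).2.2) hn0]
    set L := len β t with hL
    rcases (h01 t).1 with h | h
    · rw [h]; have := sum_nonneg (fun (j : ℕ) (_ : j ∈ range L) => hz0 (t - (j : ZMod n))); linarith
    · -- some `y` vanishes
      have hex : ∃ m : ℕ, p.1 (t - (m : ZMod n)) = 0 := by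
        by_contra hno
        push Not at hno
        have hall : ∀ s, p.1 s = 1 := fun s => by
          obtain ⟨j, _, rfl⟩ := exists_sub t s
          exact hyne' _ (hno j)
        rw [sum_congr rfl (fun s _ => hall s)] at hs2
        simp only [sum_const, card_univ, ZMod.card, nsmul_eq_mul, mul_one] at hs2
        linarith
      classical
      have hm := Nat.find_spec hex
      have hmmin := fun i hi => Nat.find_min (m := i) hex hi
      generalize Nat.find hex = m at hm hmmin
      have hm0 : m ≠ 0 := by
        intro h0; rw [h0] at hm; simp only [Nat.cast_zero, sub_zero] at hm; rw [h] at hm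
        norm_num at hm
      obtain ⟨i, rfl⟩ : ∃ i, m = i + 1 := ⟨m - 1, by omega⟩
      have hyi : ∀ j, j ≤ i → p.1 (t - (j : ZMod n)) = 1 := fun j hj => hyne' _ (hmmin j (by omega))
      have hzi : p.2 (t - (i : ZMod n)) = 1 := by
        rw [h2, sub_succ]; exact ⟨hm, hyi i le_rfl⟩
      have hiβ : i < β (t - (i : ZMod n)) := by
        obtain ⟨i0, -, hi0, hi0'⟩ := (h3 (t - (i : ZMod n)) (by
          rw [sub_succ, hm, hyi i le_rfl]; norm_num)).2
        by_contra hcon
        rw [sub_add t i i0 (by omega), hyi _ (by omega)] at hi0'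
        norm_num at hi0'
      have hin : i < n := by
        have := (hab (t - (i : ZMod n))).2.2; omega
      have hiL : i < L := (cov_iff mb t hin).1 ((mem_cov hin).2 hiβ)
      have := single_le_sum (fun (j : ℕ) (_ : j ∈ range L) => hz0 (t - (j : ZMod n)))
        (mem_range.2 hiL)
      rw [hzi] at this
      rw [h]; linarith
  | offMin =>
    show 0 ≤ 1 - p.1 (t - (len γ t : ZMod n)) - ∑ k ∈ cov γ t, p.2 k
    rw [sum_cov mg (fun t => (hgd t).2.1.trans (hgd t).2.2) hn0]
    set L := len γ t with hL
    have hLn : L < n := len_lt mg (fun t => (hgd t).2.1.trans (hgd t).2.2) hn0 t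
    have hlt : ∀ j, j < L → j < γ (t - (j : ZMod n)) := fun j hj => by
      have := (cov_iff mg t (show j < n by omega)).2 hj
      rwa [mem_cov (by omega)] at this
    -- no `y = 1` before a start-up inside the window
    have claim : ∀ j1 j2 : ℕ, j1 < j2 → j2 ≤ L → p.1 (t - (j2 : ZMod n)) = 1 →
        p.2 (t - (j1 : ZMod n)) = 1 → False := by
      intro j1 j2 h12 h2L hy hz
      obtain ⟨ha, hb⟩ := (h2 _).1 hz
      rw [sub_succ] at ha
      classical
      -- the least `m > j1` with `y = 1` at `t - m`
      have hex : ∃ m, j1 < m ∧ p.1 (t - (m : ZMod n)) = 1 := ⟨j2, h12, hy⟩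
      have hm := Nat.find_spec hex
      have hmmin := fun i hi => Nat.find_min (m := i) hex hi
      have hmle : Nat.find hex ≤ j2 := Nat.find_min' hex ⟨h12, hy⟩
      generalize Nat.find hex = m at hm hmmin hmle
      have hm1 : j1 + 1 < m := by
        rcases Nat.lt_or_ge (j1 + 1) m with h | h
        · exact h
        · have : m = j1 + 1 := by omega
          rw [this, ha] at hm
          norm_num at hm
      obtain ⟨i, rfl⟩ : ∃ i, m = i + 1 := ⟨m - 1, by omega⟩
      have hyi : p.1 (t - (i : ZMod n)) = 0 := by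
        apply hyne
        intro h1
        exact hmmin i (by omega) ⟨by omega, h1⟩
      have := off_run t i (by rw [sub_succ]; exact hm.2) hyi (hlt i (by omega)) j1 (by omega)
      rw [hb] at this
      norm_num at this
    by_cases hex : ∃ j, j < L ∧ p.2 (t - (j : ZMod n)) = 1
    · obtain ⟨j, hj, hzj⟩ := hex
      have huniq : ∀ i, i < L → i ≠ j → p.2 (t - (i : ZMod n)) = 0 := by
        intro i hi hij
        apply hzne
        intro hzi
        rcases Nat.lt_or_gt_of_ne hij with h | h
        · exact claim i j h (by omega) ((h2 _).1 hzj).2 hzi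
        · exact claim j i h (by omega) ((h2 _).1 hzi).2 hzj
      rw [sum_eq_single_of_mem j (mem_range.2 hj)
        (fun i hi hij => huniq i (mem_range.1 hi) hij), hzj]
      have : p.1 (t - (L : ZMod n)) = 0 := by
        apply hyne
        intro h1
        exact claim j L hj le_rfl h1 hzj
      rw [this]; norm_num
    · push Not at hex
      rw [sum_eq_zero (fun j hj => hzne _ (hex j (mem_range.1 hj)))]
      have := hy1 (t - (L : ZMod n)); linarith
  | offMax =>
    show 0 ≤ ∑ k ∈ cov δ t, p.2 k - (1 - p.1 (t - (len δ t : ZMod n)))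
    rw [sum_cov md (fun t => (hgd t).2.2) hn0]
    set L := len δ t with hL
    rcases (h01 (t - (L : ZMod n))).1 with h | h
    swap
    · rw [h]; have := sum_nonneg (fun (j : ℕ) (_ : j ∈ range L) => hz0 (t - (j : ZMod n))); linarith
    by_cases hez : ∃ j, j < L ∧ p.2 (t - (j : ZMod n)) = 1
    · obtain ⟨j, hj, hzj⟩ := hez
      have := single_le_sum (fun (j : ℕ) (_ : j ∈ range L) => hz0 (t - (j : ZMod n)))
        (mem_range.2 hj)
      rw [hzj] at this
      rw [h]; linarith
    exfalso
    push Not at hez
    -- `y = 0` on the whole window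
    have hzero : ∀ i, i ≤ L → p.1 (t - ((L - i : ℕ) : ZMod n)) = 0 := by
      intro i
      induction i with
      | zero => intro _; simpa using h
      | succ i ih =>
        intro hi
        apply hyne
        intro h1
        refine hez (L - (i + 1)) (by omega) ((h2 _).2 ⟨?_, h1⟩)
        rw [sub_succ, show L - (i + 1) + 1 = L - i by omega]
        exact ih (by omega)
    have hzero' : ∀ j, j ≤ L → p.1 (t - (j : ZMod n)) = 0 := fun j hj => by
      have := hzero (L - j) (by omega)
      rwa [show L - (L - j) = j by omega] at this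
    have hex : ∃ m : ℕ, p.1 (t - (m : ZMod n)) = 1 := by
      by_contra hno
      push Not at hno
      have hall : ∀ s, p.1 s = 0 := fun s => by
        obtain ⟨j, _, rfl⟩ := exists_sub t s
        exact hyne _ (hno j)
      rw [sum_congr rfl (fun s _ => hall s)] at hs1
      simp at hs1
      linarith
    classical
    have hm := Nat.find_spec hex
    have hmmin := fun i hi => Nat.find_min (m := i) hex hi
    generalize Nat.find hex = m at hm hmmin
    have hmL : L < m := by
      by_contra hcon
      rw [hzero' m (by omega)] at hm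
      norm_num at hm
    obtain ⟨i, rfl⟩ : ∃ i, m = i + 1 := ⟨m - 1, by omega⟩
    have hyi : ∀ j, j ≤ i → p.1 (t - (j : ZMod n)) = 0 := fun j hj => hyne _ (hmmin j (by omega))
    have hiδ : i < δ (t - (i : ZMod n)) := by
      obtain ⟨i0, -, hi0, hi0'⟩ := (h4 (t - (i : ZMod n)) (by
        rw [sub_succ, hm, hyi i le_rfl]; norm_num)).2
      by_contra hcon
      rw [sub_add t i i0 (by omega), hyi _ (by omega)] at hi0'
      norm_num at hi0'
    have hin : i < n := by
      have := (hgd (t - (i : ZMod n))).2.2; omega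
    have hiL : i < L := (cov_iff md t hin).1 ((mem_cov hin).2 hiδ)
    omega

end Pool.Agent.CyDes
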