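import Pool.Agent.CyDes.Round
import Pool.Agent.CyDes.Sub
import Pool.Agent.CyDes.Pot

set_option autoImplicit false
set_option linter.unusedSectionVars false

namespace Pool.Agent.CyDes

open Finset

variable {n : ℕ} [NeZero n]

/-- The sum of the slacks of the constraints used forwards by `C`. -/
def fwd (α β γ δ : ZMod n → ℕ) (p : E n) (C : List (Con n × Bool)) : ℝ :=
  (C.map fun x => if x.2 then slack α β γ δ p x.1 else 0).sum

theorem net_false (f : Con n → ℤ) (e : Con n) (C : List (Con n × Bool)) :
    net f ((e, false) :: C) = -f e + net f C := by simp [net]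

theorem net_true (f : Con n → ℤ) (e : Con n) (C : List (Con n × Bool)) :
    net f ((e, true) :: C) = f e + net f C := by simp [net]

theorem back_false (α β γ δ : ZMod n → ℕ) (p : E n) (e : Con n) (C : List (Con n × Bool)) :
    back α β γ δ p ((e, false) :: C) = slack α β γ δ p e + back α β γ δ p C := by simp [back]

theorem back_true (α β γ δ : ZMod n → ℕ) (p : E n) (e : Con n) (C : List (Con n × Bool)) :
    back α β γ δ p ((e, true) :: C) = back α β γ δ p C := by simp [back]

theorem fwd_false (α β γ δ : ZMod n → ℕ) (p : E n) (e : Con n) (C : List (Con n × Bool)) :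
    fwd α β γ δ p ((e, false) :: C) = fwd α β γ δ p C := by simp [fwd]

theorem fwd_true (α β γ δ : ZMod n → ℕ) (p : E n) (e : Con n) (C : List (Con n × Bool)) :
    fwd α β γ δ p ((e, true) :: C) = slack α β γ δ p e + fwd α β γ δ p C := by simp [fwd]

theorem fwd_nonneg {α β γ δ : ZMod n → ℕ} {p : E n} (h : ∀ e, 0 ≤ slack α β γ δ p e)
    (C : List (Con n × Bool)) : 0 ≤ fwd α β γ δ p C := by
  apply List.sum_nonneg
  intro x hx
  obtain ⟨y, _, rfl⟩ := List.mem_map.1 hx
  split_ifs
  · exact h _
  · exact le_rfl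

theorem back_nonneg {α β γ δ : ZMod n → ℕ} {p : E n} (h : ∀ e, 0 ≤ slack α β γ δ p e)
    (C : List (Con n × Bool)) : 0 ≤ back α β γ δ p C := by
  apply List.sum_nonneg
  intro x hx
  obtain ⟨y, _, rfl⟩ := List.mem_map.1 hx
  split_ifs
  · exact le_rfl
  · exact h _

theorem cycle_sum {α β γ δ : ZMod n → ℕ} {M : Type*} [AddCommMonoid M] (f : Node n → M)
    {C : List (Con n × Bool)} (hC : IsCycle α β γ δ C) :
    (C.map fun x => f (head α β γ δ x)).sum = (C.map fun x => f (tail α β γ δ x)).sum := by
  have h1 : (C.map fun x => f (head α β γ δ x)) = (C.map (head α β γ δ)).map f := by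
    rw [List.map_map]; rfl
  have h2 : (C.map fun x => f (tail α β γ δ x)) = (C.map (tail α β γ δ)).map f := by
    rw [List.map_map]; rfl
  rw [h1, h2, hC.2.2]
  exact ((List.rotate_perm _ 1).map f).sum_eq

/-- The basic identity of a cycle. -/
theorem fwd_sub_back {α β γ δ : ZMod n → ℕ} (hn : 2 ≤ n)
    (hab : Bounds n α β) (hgd : Bounds n γ δ) (ma : WeaklyMonotone n α)
    (mb : WeaklyMonotone n β) (mg : WeaklyMonotone n γ) (md : WeaklyMonotone n δ)
    (p : E n) {C : List (Con n × Bool)} (hC : IsCycle α β γ δ C) :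
    fwd α β γ δ p C - back α β γ δ p C =
      (net cost C : ℤ) - (∑ t, p.2 t) * (net (shift α β γ δ) C : ℤ) / n := by
  obtain ⟨π, hπ⟩ := Q_surj hn p
  set K := ∑ t, p.2 t with hK
  have hs : ∀ e, slack α β γ δ p e =
      cost e - K * (shift α β γ δ e : ℤ) / n - (π (dst α β γ δ e) - π (src α β γ δ e)) := by
    intro e
    rw [hπ, slack_Q hn hab hgd ma mb mg md]
  have main : ∀ C : List (Con n × Bool), fwd α β γ δ p C - back α β γ δ p C =
      (net cost C : ℤ) - K * (net (shift α β γ δ) C : ℤ) / n -
        ((C.map fun x => π (head α β γ δ x)).sum - (C.map fun x => π (tail α β γ δ x)).sum) := by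
    intro C
    induction C with
    | nil => simp [fwd, back, net]
    | cons x C ih =>
      obtain ⟨e, b⟩ := x
      have := hs e
      rw [List.map_cons, List.map_cons, List.sum_cons, List.sum_cons]
      cases b
      · rw [fwd_false, back_false, net_false, net_false]
        simp only [Bool.false_eq_true, if_false, head, tail] at ih ⊢
        push_cast
        rw [mul_add, add_div, mul_neg, neg_div]
        linarith
      · rw [fwd_true, back_true, net_true, net_true]
        simp only [if_true, head, tail] at ih ⊢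
        push_cast
        rw [mul_add, add_div]
        linarith
  rw [main C, cycle_sum π hC]
  ring

theorem shift_dvd {α β γ δ : ZMod n → ℕ} {C : List (Con n × Bool)} (hC : IsCycle α β γ δ C) :
    (n : ℤ) ∣ net (shift α β γ δ) C := by
  rw [← ZMod.intCast_zmod_eq_zero_iff_dvd]
  have main : ∀ C : List (Con n × Bool), ((net (shift α β γ δ) C : ℤ) : ZMod n) =
      (C.map fun x => (head α β γ δ x).2).sum - (C.map fun x => (tail α β γ δ x).2).sum := by
    intro C
    induction C with
    | nil => simp [net]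
    | cons x C ih =>
      obtain ⟨e, b⟩ := x
      rw [List.map_cons, List.map_cons, List.sum_cons, List.sum_cons]
      cases b
      · rw [net_false]
        push_cast
        rw [ih]
        simp only [Bool.false_eq_true, if_false, head, tail]
        rw [dst_eq]
        ring
      · rw [net_true]
        push_cast
        rw [ih]
        simp only [if_true, head, tail]
        rw [dst_eq]
        ring
  rw [main C, cycle_sum (fun v : Node n => v.2) hC, sub_self]

theorem slack_comb (α β γ δ : ZMod n → ℕ) (x y : E n) {a b : ℝ} (hab : a + b = 1) (e : Con n) :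
    slack α β γ δ (a • x + b • y) e = a * slack α β γ δ x e + b * slack α β γ δ y e := by
  have hb : b = 1 - a := by linarith
  subst hb
  obtain ⟨k, t⟩ := e
  cases k <;> simp only [slack, Prod.fst_add, Prod.snd_add, Prod.smul_fst, Prod.smul_snd,
    Pi.add_apply, Pi.smul_apply, smul_eq_mul, sum_add_distrib, ← mul_sum] <;> ring

theorem back_comb (α β γ δ : ZMod n → ℕ) (x y : E n) {a b : ℝ} (hab : a + b = 1)
    (C : List (Con n × Bool)) :
    back α β γ δ (a • x + b • y) C = a * back α β γ δ x C + b * back α β γ δ y C := by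
  unfold back
  induction C with
  | nil => simp
  | cons u C ih =>
    simp only [List.map_cons, List.sum_cons]
    rw [ih]
    split_ifs
    · ring
    · rw [slack_comb α β γ δ x y hab]; ring

theorem convex_rhs (α β γ δ : ZMod n → ℕ) :
    Convex ℝ {p : E n | (∀ e, 0 ≤ slack α β γ δ p e) ∧
      ∀ C, IsCycle α β γ δ C → CycleIneq α β γ δ p C} := by
  rintro x ⟨hx1, hx2⟩ y ⟨hy1, hy2⟩ a b ha hb hab
  refine ⟨fun e => ?_, fun C hC A B hA hAn hB => ?_⟩
  · rw [slack_comb α β γ δ x y hab]
    have := mul_nonneg ha (hx1 e)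
    have := mul_nonneg hb (hy1 e)
    linarith
  · rw [back_comb α β γ δ x y hab]
    have h1 := mul_le_mul_of_nonneg_left (hx2 C hC A B hA hAn hB) ha
    have h2 := mul_le_mul_of_nonneg_left (hy2 C hC A B hA hAn hB) hb
    have e : ∑ t, (a • x + b • y).2 t = a * ∑ t, x.2 t + b * ∑ t, y.2 t := by
      simp only [Prod.snd_add, Prod.smul_snd, Pi.add_apply, Pi.smul_apply, smul_eq_mul,
        sum_add_distrib, ← mul_sum]
    rw [e]
    have hb' : b = 1 - a := by linarith
    subst hb'
    nlinarith [h1, h2]

/-- Every schedule satisfies every cycle inequality. -/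
theorem cycle_valid {α β γ δ : ZMod n → ℕ} (hn : 2 ≤ n)
    (hab : Bounds n α β) (hgd : Bounds n γ δ) (ma : WeaklyMonotone n α)
    (mb : WeaklyMonotone n β) (mg : WeaklyMonotone n γ) (md : WeaklyMonotone n δ)
    {p : E n} (hp : p ∈ Z n α β γ δ) {C : List (Con n × Bool)} (hC : IsCycle α β γ δ C) :
    CycleIneq α β γ δ p C := by
  intro a b ha han hb
  have hn' : (n : ℝ) ≠ 0 := by exact_mod_cast NeZero.ne n
  have hs := slack_nonneg_of_mem hn hab hgd ma mb mg md hp
  have hid := fwd_sub_back hn hab hgd ma mb mg md p hC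
  have hf := fwd_nonneg hs C
  have hb0 := back_nonneg hs C
  -- `∑ z` is an integer
  obtain ⟨K, hK⟩ : ∃ K : ℤ, ∑ t, p.2 t = K := by
    choose f hf using fun t => show ∃ i : ℤ, p.2 t = i by
      rcases (hp.1 t).2 with h | h
      · exact ⟨0, by rw [h]; simp⟩
      · exact ⟨1, by rw [h]; simp⟩
    exact ⟨∑ t, f t, by push_cast; exact sum_congr rfl (fun t _ => hf t)⟩
  rw [hK] at hid ⊢
  have hcost : ((net cost C : ℤ) : ℝ) = -b := by rw [hb]; push_cast; ring
  have hshift : ((net (shift α β γ δ) C : ℤ) : ℝ) = -(a * n) := by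
    have : net (shift α β γ δ) C = -(a * n) := by linarith
    rw [this]; push_cast; ring
  rw [hcost, hshift] at hid
  have hid' : fwd α β γ δ p C - back α β γ δ p C = -b + K * a := by
    rw [hid]; field_simp; ring
  have hr0 : 0 ≤ b % a := Int.emod_nonneg b (by omega)
  have hr1 : b % a < a := Int.emod_lt_of_pos b (by omega)
  have hba : b = a * (b / a) + b % a := (Int.mul_ediv_add_emod b a).symm
  set q := b / a with hq
  set r := b % a with hr
  have hr0' : (0 : ℝ) ≤ r := by exact_mod_cast hr0
  have hr1' : (r : ℝ) ≤ a := by exact_mod_cast hr1.le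
  have hbR : (b : ℝ) = a * q + r := by exact_mod_cast hba
  rcases le_or_gt K q with h | h
  · have h' : (K : ℝ) ≤ q := by exact_mod_cast h
    nlinarith [mul_nonneg (sub_nonneg.2 hr1') (sub_nonneg.2 h')]
  · have h' : (q : ℝ) + 1 ≤ K := by exact_mod_cast h
    nlinarith [mul_nonneg hr0' (sub_nonneg.2 h')]

/-- The main theorem. -/
theorem main {α β γ δ : ZMod n → ℕ} (hn : 2 ≤ n)
    (hab : Bounds n α β) (hgd : Bounds n γ δ) (ma : WeaklyMonotone n α)
    (mb : WeaklyMonotone n β) (mg : WeaklyMonotone n γ) (md : WeaklyMonotone n δ) :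
    convexHull ℝ (Z n α β γ δ) = {p : E n | (∀ e, 0 ≤ slack α β γ δ p e) ∧
      ∀ C, IsCycle α β γ δ C → CycleIneq α β γ δ p C} := by
  apply Set.Subset.antisymm
  · apply convexHull_min _ (convex_rhs α β γ δ)
    intro p hp
    exact ⟨slack_nonneg_of_mem hn hab hgd ma mb mg md hp,
      fun C hC => cycle_valid hn hab hgd ma mb mg md hp hC⟩
  rintro p ⟨hs, hcyc⟩
  have hn' : (n : ℝ) ≠ 0 := by exact_mod_cast NeZero.ne n
  obtain ⟨π, hπ⟩ := Q_surj hn p
  set κ := ∑ t, p.2 t with hκ
  set k := ⌊κ⌋ with hk
  set θ := Int.fract κ with hθ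
  have hκk : κ = k + θ := (Int.floor_add_fract κ).symm
  have hθ0 : 0 ≤ θ := Int.fract_nonneg κ
  have hθ1 : θ < 1 := Int.fract_lt_one κ
  rcases hθ0.eq_or_lt with h0 | hpos
  · -- integer slice
    have hκ' : κ = ((k : ℤ) : ℝ) := by rw [hκk, ← h0]; ring
    rw [hπ, hκ']
    apply slice_mem hn hab hgd ma mb mg md
    intro e
    have := hs e
    rwa [hπ, hκ'] at this
  have hsQ : ∀ e, slack α β γ δ p e =
      cost e - κ * (shift α β γ δ e : ℤ) / n - (π (dst α β γ δ e) - π (src α β γ δ e)) := by
    intro e
    rw [hπ, slack_Q hn hab hgd ma mb mg md]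
  let g : Con n → ℝ := fun e => cost e - k * (shift α β γ δ e : ℤ) / n
  let w : Con n × Bool → ℝ := fun x =>
    if x.2 then (1 - θ) * g x.1 else slack α β γ δ p x.1 - (1 - θ) * g x.1
  have hw : ∀ C : List (Con n × Bool), (C.map w).sum =
      back α β γ δ p C + (1 - θ) * ((net cost C : ℤ) - k * (net (shift α β γ δ) C : ℤ) / n) := by
    intro C
    induction C with
    | nil => simp [back, net]
    | cons x C ih =>
      obtain ⟨e, b⟩ := x
      rw [List.map_cons, List.sum_cons, ih]
      cases b
      · rw [back_false, net_false, net_false]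
        simp only [w, g, Bool.false_eq_true, if_false]
        push_cast
        ring
      · rw [back_true, net_true, net_true]
        simp only [w, g, if_true]
        push_cast
        ring
  have hfinK : Finite Kind := by
    refine Finite.of_injective (fun k : Kind => match k with
      | .start => (0 : Fin 6) | .nonneg => 1 | .onMin => 2 | .onMax => 3 | .offMin => 4
      | .offMax => 5) ?_
    intro a b h
    cases a <;> cases b <;> first | rfl | (simp at h)
  obtain ⟨v, hv⟩ := exists_potential (tail α β γ δ) (head α β γ δ) w (by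
    intro C h1 h2 h3
    have hC : IsCycle α β γ δ C := ⟨h1, h2, h3⟩
    rw [hw]
    obtain ⟨m, hm⟩ := shift_dvd hC
    -- winding number
    set a : ℤ := -m with ha
    set b : ℤ := -net cost C with hb
    have hshift : ((net (shift α β γ δ) C : ℤ) : ℝ) = -(a * n) := by
      rw [hm, ha]; push_cast; ring
    have hcost : ((net cost C : ℤ) : ℝ) = -b := by rw [hb]; push_cast; ring
    have hid := fwd_sub_back hn hab hgd ma mb mg md p hC
    rw [hcost, hshift, ← hκ] at hid
    have hid' : fwd α β γ δ p C - back α β γ δ p C = -b + κ * a := by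
      rw [hid]; field_simp; ring
    have hf := fwd_nonneg hs C
    have hb0 := back_nonneg hs C
    rw [hcost, hshift]
    have e1 : (-(b : ℝ) - k * -(a * n) / n) = -(b - k * a) := by field_simp; ring
    rw [e1]
    rw [hκk] at hid'
    by_cases hneg : (b : ℝ) - k * a ≤ 0
    · nlinarith [mul_nonneg (sub_nonneg.2 hθ1.le) (neg_nonneg.2 hneg)]
    push Not at hneg
    by_cases ha2 : 2 ≤ a
    · have hr0 : 0 ≤ b % a := Int.emod_nonneg b (by omega)
      have hr1 : b % a < a := Int.emod_lt_of_pos b (by omega)
      have hba : b = a * (b / a) + b % a := (Int.mul_ediv_add_emod b a).symm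
      have hmir := hcyc C hC a b ha2 (by rw [hm, ha]; ring) hb
      rw [← hκ] at hmir
      set q := b / a with hq
      set r := b % a with hr
      have hbR : (b : ℝ) = a * q + r := by exact_mod_cast hba
      have haR : (2 : ℝ) ≤ a := by exact_mod_cast ha2
      have hr0' : (0 : ℝ) ≤ r := by exact_mod_cast hr0
      have hr1' : (r : ℝ) ≤ a := by exact_mod_cast hr1.le
      rcases lt_trichotomy q k with h | h | h
      · exfalso
        have h' : (q : ℝ) + 1 ≤ k := by exact_mod_cast h
        nlinarith [mul_nonneg (by linarith : (0 : ℝ) ≤ a) (sub_nonneg.2 h')]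
      · rw [h] at hmir hbR
        rw [hκk] at hmir
        have e2 : (b : ℝ) - k * a = r := by rw [hbR]; ring
        rw [e2]
        nlinarith
      · have h' : (k : ℝ) + 1 ≤ q := by exact_mod_cast h
        have hge : (a : ℝ) ≤ b - k * a := by
          rw [hbR]
          nlinarith [mul_nonneg (by linarith : (0 : ℝ) ≤ a) (sub_nonneg.2 h')]
        nlinarith [mul_nonneg hθ0 (sub_nonneg.2 hge)]
    · rcases (show a ≤ 0 ∨ a = 1 by omega) with h | h
      · have h' : (a : ℝ) ≤ 0 := by exact_mod_cast h
        nlinarith [mul_nonneg hθ0 (neg_nonneg.2 h'), mul_pos hpos hneg]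
      · have h' : (a : ℝ) = 1 := by exact_mod_cast h
        have hge : (1 : ℝ) ≤ b - k * a := by
          rw [h', mul_one] at hneg ⊢
          have : (0 : ℤ) < b - k := by exact_mod_cast hneg
          have : (1 : ℤ) ≤ b - k := by omega
          exact_mod_cast this
        rw [h'] at hge hid' ⊢
        nlinarith [mul_nonneg hθ0 (sub_nonneg.2 hge)])
  have h1θ : 0 < 1 - θ := by linarith
  -- the two integer slices
  set π0 : Node n → ℝ := fun u => v u / (1 - θ) with hπ0
  set π1 : Node n → ℝ := fun u => (π u - v u) / θ with hπ1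
  have hm0 : Q π0 (k : ℝ) ∈ convexHull ℝ (Z n α β γ δ) := by
    apply slice_mem hn hab hgd ma mb mg md
    intro e
    rw [slack_Q hn hab hgd ma mb mg md]
    have h := hv (e, true)
    simp only [head, tail, w, g, if_true] at h
    have e1 : π0 (dst α β γ δ e) - π0 (src α β γ δ e) =
        (v (dst α β γ δ e) - v (src α β γ δ e)) / (1 - θ) := by simp only [hπ0]; ring
    rw [e1]
    have : (v (dst α β γ δ e) - v (src α β γ δ e)) / (1 - θ) ≤
        cost e - k * (shift α β γ δ e : ℤ) / n := by
      rw [div_le_iff₀ h1θ]; linarith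
    linarith
  have hm1 : Q π1 ((k + 1 : ℤ) : ℝ) ∈ convexHull ℝ (Z n α β γ δ) := by
    apply slice_mem hn hab hgd ma mb mg md
    intro e
    rw [slack_Q hn hab hgd ma mb mg md]
    have h := hv (e, false)
    simp only [head, tail, w, g, Bool.false_eq_true, if_false] at h
    rw [hsQ e, hκk] at h
    have e1 : π1 (dst α β γ δ e) - π1 (src α β γ δ e) =
        ((π (dst α β γ δ e) - π (src α β γ δ e)) -
          (v (dst α β γ δ e) - v (src α β γ δ e))) / θ := by simp only [hπ1]; ring
    rw [e1]
    have : ((π (dst α β γ δ e) - π (src α β γ δ e)) -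
          (v (dst α β γ δ e) - v (src α β γ δ e))) / θ ≤
        cost e - ((k + 1 : ℤ) : ℝ) * (shift α β γ δ e : ℤ) / n := by
      rw [div_le_iff₀ hpos]
      push_cast
      have e2 : ((cost e : ℤ) - ((k : ℝ) + 1) * (shift α β γ δ e : ℤ) / n) * θ =
        (cost e : ℤ) * θ - θ * ((k : ℝ) + 1) * ((shift α β γ δ e : ℤ) / n) := by ring
      rw [e2]
      have e3 : ((k : ℝ) + θ) * (shift α β γ δ e : ℤ) / n =
        ((k : ℝ) + θ) * ((shift α β γ δ e : ℤ) / n) := by ring
      have e4 : (1 - θ) * ((cost e : ℤ) - (k : ℝ) * (shift α β γ δ e : ℤ) / n) =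
        (1 - θ) * (cost e : ℤ) - (1 - θ) * k * ((shift α β γ δ e : ℤ) / n) := by ring
      rw [e3, e4] at h
      nlinarith [h]
    linarith
  have hcomb := convex_convexHull ℝ (Z n α β γ δ) hm0 hm1 h1θ.le hθ0 (by ring)
  rw [Q_comb] at hcomb
  have hfin : Q (fun u => (1 - θ) * π0 u + θ * π1 u) ((1 - θ) * (k : ℝ) + θ * ((k + 1 : ℤ) : ℝ)) =
      p := by
    rw [hπ]
    congr 1
    · funext u
      simp only [hπ0, hπ1]
      field_simp
      ring
    · rw [hκk]; push_cast; ring
  rwa [hfin] at hcomb

end Pool.Agent.CyDes
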