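import Pool.Agent.CyDes.Cov

set_option autoImplicit false

namespace Pool.Agent.CyDes

open Finset

variable {n : ℕ} [NeZero n]

/-- Integer points of `P` are schedules. -/
theorem mem_of_slack_nonneg {α β γ δ : ZMod n → ℕ} (hn : 2 ≤ n)
    (hab : Bounds n α β) (hgd : Bounds n γ δ) (ma : WeaklyMonotone n α)
    (mb : WeaklyMonotone n β) (mg : WeaklyMonotone n γ) (md : WeaklyMonotone n δ)
    {p : E n} (hy : ∀ t, ∃ i : ℤ, p.1 t = i) (hz : ∀ t, ∃ i : ℤ, p.2 t = i)
    (hs : ∀ e, 0 ≤ slack α β γ δ p e) : p ∈ Z n α β γ δ := by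
  have hn0 : 0 < n := by omega
  have hst : ∀ t, 0 ≤ p.2 t - (p.1 t - p.1 (t - 1)) := fun t => hs (.start, t)
  have hz0 : ∀ t, 0 ≤ p.2 t := fun t => hs (.nonneg, t)
  have hon : ∀ t, 0 ≤ p.1 t - ∑ j ∈ range (len α t), p.2 (t - (j : ZMod n)) := fun t => by
    have : 0 ≤ p.1 t - ∑ k ∈ cov α t, p.2 k := hs (.onMin, t)
    rwa [sum_cov ma (fun t => (hab t).2.1.trans (hab t).2.2) hn0] at this
  have hon' : ∀ t, ∀ k ∈ cov α t, p.2 k ≤ p.1 t := fun t k hk => by
    have h1 : 0 ≤ p.1 t - ∑ k ∈ cov α t, p.2 k := hs (.onMin, t)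
    have h2 := single_le_sum (fun (j : ZMod n) (_ : j ∈ cov α t) => hz0 j) hk
    linarith
  have hbm : ∀ t, 0 ≤ ∑ j ∈ range (len β t), p.2 (t - (j : ZMod n)) - p.1 t := fun t => by
    have : 0 ≤ ∑ k ∈ cov β t, p.2 k - p.1 t := hs (.onMax, t)
    rwa [sum_cov mb (fun t => (hab t).2.2) hn0] at this
  have hgm : ∀ t, 0 ≤ 1 - p.1 (t - (len γ t : ZMod n)) -
      ∑ j ∈ range (len γ t), p.2 (t - (j : ZMod n)) := fun t => by
    have : 0 ≤ 1 - p.1 (t - (len γ t : ZMod n)) - ∑ k ∈ cov γ t, p.2 k := hs (.offMin, t)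
    rwa [sum_cov mg (fun t => (hgd t).2.1.trans (hgd t).2.2) hn0] at this
  have hdm : ∀ t, 0 ≤ ∑ j ∈ range (len δ t), p.2 (t - (j : ZMod n)) -
      (1 - p.1 (t - (len δ t : ZMod n))) := fun t => by
    have : 0 ≤ ∑ k ∈ cov δ t, p.2 k - (1 - p.1 (t - (len δ t : ZMod n))) := hs (.offMax, t)
    rwa [sum_cov md (fun t => (hgd t).2.2) hn0] at this
  have sub_succ : ∀ (t : ZMod n) (j : ℕ), t - (j : ZMod n) - 1 = t - ((j + 1 : ℕ) : ZMod n) := by
    intro t j; push_cast; ring
  have hself : ∀ t, t ∈ cov α t := fun t => by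
    have := (hab t).1
    simp only [cov, mem_filter, mem_univ, true_and, sub_self, ZMod.val_zero]
    omega
  have hzy : ∀ t, p.2 t ≤ p.1 t := fun t => hon' t t (hself t)
  have hy0 : ∀ t, 0 ≤ p.1 t := fun t => (hz0 t).trans (hzy t)
  have hy1 : ∀ t, p.1 t ≤ 1 := fun t => by
    have h1 := hgm t
    have h2 := tele hst t (len γ t)
    linarith
  have hzprev : ∀ t, p.1 (t - 1) + p.2 t ≤ 1 := fun t => by
    have h1 := hgm t
    have hl := len_pos mg (fun t => (hgd t).1) hn0 t
    obtain ⟨m, hm⟩ : ∃ m, len γ t = m + 1 := ⟨len γ t - 1, by omega⟩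
    rw [hm] at h1
    rw [sum_range_succ'] at h1
    have h2 := tele hst (t - 1) m
    have e1 : ∀ j : ℕ, t - 1 - (j : ZMod n) = t - ((j + 1 : ℕ) : ZMod n) := by
      intro j; push_cast; ring
    rw [e1] at h2
    simp only [e1] at h2
    simp only [Nat.cast_zero, sub_zero] at h1
    linarith
  have int01 : ∀ x : ℝ, (∃ i : ℤ, x = i) → 0 ≤ x → x ≤ 1 → x = 0 ∨ x = 1 := by
    rintro x ⟨i, rfl⟩ h0 h1
    have a0 : (0 : ℤ) ≤ i := by exact_mod_cast h0
    have a1 : i ≤ 1 := by exact_mod_cast h1
    rcases (show i = 0 ∨ i = 1 by omega) with rfl | rfl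
    · left; simp
    · right; simp
  have h01y : ∀ t, p.1 t = 0 ∨ p.1 t = 1 := fun t => int01 _ (hy t) (hy0 t) (hy1 t)
  have h01z : ∀ t, p.2 t = 0 ∨ p.2 t = 1 := fun t =>
    int01 _ (hz t) (hz0 t) ((hzy t).trans (hy1 t))
  have hyne : ∀ t, p.1 t ≠ 1 → p.1 t = 0 := fun t h => by
    rcases h01y t with h' | h'
    · exact h'
    · exact absurd h' h
  have hyne' : ∀ t, p.1 t ≠ 0 → p.1 t = 1 := fun t h => by
    rcases h01y t with h' | h'
    · exact absurd h' h
    · exact h'
  have hzne : ∀ t, p.2 t ≠ 1 → p.2 t = 0 := fun t h => by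
    rcases h01z t with h' | h'
    · exact h'
    · exact absurd h' h
  have h2 : ∀ t, p.2 t = 1 ↔ (p.1 (t - 1) = 0 ∧ p.1 t = 1) := by
    intro t
    constructor
    · intro h
      have a := hzy t
      have b := hzprev t
      have c := hy0 (t - 1)
      have d := hy1 t
      constructor <;> linarith
    · rintro ⟨ha, hb⟩
      have := hst t
      rw [ha, hb] at this
      have h1 := hzy t
      linarith
  -- no window without a start-up etc.
  have exz : ∀ (t : ZMod n) (L : ℕ), 1 ≤ ∑ j ∈ range L, p.2 (t - (j : ZMod n)) →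
      ∃ j, j < L ∧ p.2 (t - (j : ZMod n)) = 1 := by
    intro t L h
    by_contra hno
    push Not at hno
    rw [sum_eq_zero (fun j hj => hzne _ (hno j (mem_range.1 hj)))] at h
    norm_num at h
  refine ⟨fun t => ⟨h01y t, h01z t⟩, ⟨?_, ?_⟩, h2, ?_, ?_⟩
  · by_contra hcon
    have hall : ∀ t, p.1 t = 0 := by
      intro t
      apply hyne
      intro h1
      have := single_le_sum (fun (j : ZMod n) (_ : j ∈ univ) => hy0 j) (mem_univ t)
      rw [h1] at this
      exact hcon this
    have := hdm 0
    rw [hall] at this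
    obtain ⟨j, _, hj⟩ := exz 0 (len δ 0) (by linarith)
    have := hzy (0 - (j : ZMod n))
    rw [hj, hall] at this
    norm_num at this
  · have hex : ∃ t, p.1 t = 0 := by
      by_contra hno
      push Not at hno
      have hall : ∀ t, p.1 t = 1 := fun t => hyne' t (hno t)
      have := hbm 0
      rw [hall] at this
      obtain ⟨j, _, hj⟩ := exz 0 (len β 0) (by linarith)
      have := ((h2 _).1 hj).1
      rw [hall] at this
      norm_num at this
    obtain ⟨a, ha⟩ := hex
    have h := single_le_sum (fun (j : ZMod n) (_ : j ∈ univ) => sub_nonneg.2 (hy1 j)) (mem_univ a)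
    rw [ha, sum_sub_distrib] at h
    simp only [sum_const, card_univ, ZMod.card, nsmul_eq_mul, mul_one] at h
    linarith
  · intro t ht
    have hz1 : p.2 t = 1 := by
      rw [h2]
      rcases h01y t with h | h <;> rcases h01y (t - 1) with h' | h' <;> rw [h, h'] at ht <;>
        first | exact ⟨h', h⟩ | (exfalso; norm_num at ht)
    have hrun : ∀ i : ℕ, i < α t → p.1 (t + (i : ZMod n)) = 1 := by
      intro i hi
      have hin : i < n := by have := (hab t).2; omega
      have hmem : t ∈ cov α (t + (i : ZMod n)) := by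
        simp only [cov, mem_filter, mem_univ, true_and]
        rw [show t + (i : ZMod n) - t = (i : ZMod n) by ring, ZMod.val_natCast_of_lt hin]
        exact hi
      have a := hon' _ _ hmem
      have b := hy1 (t + (i : ZMod n))
      linarith
    refine ⟨hrun, ?_⟩
    by_contra hno
    push Not at hno
    have hall : ∀ i : ℕ, i ≤ β t → p.1 (t + (i : ZMod n)) = 1 := by
      intro i hi
      by_cases h : i < α t
      · exact hrun i h
      · exact hyne' _ (hno i (by omega) hi)
    set t' := t + (β t : ZMod n) with ht'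
    have hb := hbm t'
    rw [hall _ le_rfl] at hb
    obtain ⟨j, hj, hzj⟩ := exz t' _ (by linarith)
    have hβn : β t < n := by have := (hab t).2.2; omega
    have hL : len β t' ≤ β t := by
      by_contra hcon
      have := (cov_iff mb t' hβn).2 (by omega)
      rw [mem_cov hβn, show t' - (β t : ZMod n) = t by rw [ht']; ring] at this
      omega
    have := ((h2 _).1 hzj).1
    rw [show t' - (j : ZMod n) - 1 = t + ((β t - (j + 1) : ℕ) : ZMod n) by
      rw [ht', Nat.cast_sub (by omega)]; push_cast; ring, hall _ (by omega)] at this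
    norm_num at this
  · intro t ht
    have hyt : p.1 (t - 1) = 1 ∧ p.1 t = 0 := by
      rcases h01y t with h | h <;> rcases h01y (t - 1) with h' | h' <;> rw [h, h'] at ht <;>
        first | exact ⟨h', h⟩ | (exfalso; norm_num at ht)
    have hrun : ∀ i : ℕ, i < γ t → p.1 (t + (i : ZMod n)) = 0 := by
      by_contra hno
      push Not at hno
      classical
      have hm := Nat.find_spec hno
      have hmmin := fun i hi => Nat.find_min (m := i) hno hi
      generalize Nat.find hno = m at hm hmmin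
      have hm0 : m ≠ 0 := by
        intro h0
        rw [h0] at hm
        simp only [Nat.cast_zero, add_zero] at hm
        exact hm.2 hyt.2
      obtain ⟨i, rfl⟩ : ∃ i, m = i + 1 := ⟨m - 1, by omega⟩
      have hyi : p.1 (t + (i : ZMod n)) = 0 := by
        have := hmmin i (by omega)
        push Not at this
        exact this (by omega)
      have hzi : p.2 (t + ((i + 1 : ℕ) : ZMod n)) = 1 := by
        rw [h2]
        refine ⟨?_, hyne' _ hm.2⟩
        rw [show t + ((i + 1 : ℕ) : ZMod n) - 1 = t + (i : ZMod n) by push_cast; ring]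
        exact hyi
      set t' := t + ((i + 1 : ℕ) : ZMod n) with ht'
      have hin : i + 1 < n := by have := (hgd t).2; omega
      have hL : i + 1 < len γ t' := by
        refine (cov_iff mg t' hin).1 ?_
        rw [mem_cov hin, show t' - ((i + 1 : ℕ) : ZMod n) = t by rw [ht']; ring]
        omega
      have hg := hgm t'
      obtain ⟨m, hmL⟩ : ∃ m, len γ t' = (i + 2) + m := ⟨len γ t' - (i + 2), by omega⟩
      rw [hmL, sum_range_add, sum_range_succ'] at hg
      have h1 := tele hst (t - 1) m
      have e1 : ∀ j : ℕ, t - 1 - (j : ZMod n) = t' - ((i + 2 + j : ℕ) : ZMod n) := by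
        intro j; rw [ht']; push_cast; ring
      rw [e1] at h1
      simp only [e1] at h1
      have h3 := sum_nonneg (fun (j : ℕ) (_ : j ∈ range (i + 1)) =>
        hz0 (t' - ((j + 1 : ℕ) : ZMod n)))
      simp only [Nat.cast_zero, sub_zero] at hg
      rw [hyt.1] at h1
      rw [hzi] at hg
      linarith
    refine ⟨hrun, ?_⟩
    by_contra hno
    push Not at hno
    have hall : ∀ i : ℕ, i ≤ δ t → p.1 (t + (i : ZMod n)) = 0 := by
      intro i hi
      by_cases h : i < γ t
      · exact hrun i h
      · exact hyne _ (hno i (by omega) hi)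
    set t' := t + (δ t : ZMod n) with ht'
    have hδn : δ t < n := by have := (hgd t).2.2; omega
    have hL : len δ t' ≤ δ t := by
      by_contra hcon
      have := (cov_iff md t' hδn).2 (by omega)
      rw [mem_cov hδn, show t' - (δ t : ZMod n) = t by rw [ht']; ring] at this
      omega
    have hb := hdm t'
    rw [show t' - (len δ t' : ZMod n) = t + ((δ t - len δ t' : ℕ) : ZMod n) by
      rw [Nat.cast_sub hL]; simp only [ht']; ring, hall _ (by omega)] at hb
    obtain ⟨j, hj, hzj⟩ := exz t' _ (by linarith)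
    have := ((h2 _).1 hzj).2
    rw [show t' - (j : ZMod n) = t + ((δ t - j : ℕ) : ZMod n) by
      rw [ht', Nat.cast_sub (by omega)]; ring, hall _ (by omega)] at this
    norm_num at this

end Pool.Agent.CyDes
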