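import Pool.Agent.CyDes.Gauge
import Pool.Agent.CyDes.Sup

set_option autoImplicit false

namespace Pool.Agent.CyDes

open Finset MeasureTheory

/-- The average of `⌊U + τ⌋` over `τ` in the unit interval is `U`. -/
theorem integral_floor (U : ℝ) :
    ∫ τ in Set.Ioc (0 : ℝ) 1, ((⌊U + τ⌋ : ℤ) : ℝ) = U := by
  set f := Int.fract U with hf
  have h0 : 0 ≤ f := Int.fract_nonneg U
  have h1 : f < 1 := Int.fract_lt_one U
  have hU : U = (⌊U⌋ : ℝ) + f := (Int.floor_add_fract U).symm
  have heq : ∀ τ ∈ Set.Ioc (0 : ℝ) 1, ((⌊U + τ⌋ : ℤ) : ℝ) =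
      (⌊U⌋ : ℝ) + (Set.Icc (1 - f) 1).indicator (fun _ => (1 : ℝ)) τ := by
    rintro τ ⟨hτ0, hτ1⟩
    by_cases h : 1 - f ≤ τ
    · rw [Set.indicator_of_mem (show τ ∈ Set.Icc (1 - f) 1 from ⟨h, hτ1⟩)]
      have : ⌊U + τ⌋ = ⌊U⌋ + 1 := by
        rw [Int.floor_eq_iff]
        push_cast
        constructor <;> linarith
      rw [this]; push_cast; ring
    · rw [Set.indicator_of_notMem (fun hc => h hc.1)]
      push Not at h
      have : ⌊U + τ⌋ = ⌊U⌋ := by
        rw [Int.floor_eq_iff]
        constructor <;> linarith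
      rw [this]; ring
  rw [setIntegral_congr_fun measurableSet_Ioc heq]
  rw [integral_add (by simp) ((integrable_indicator_iff measurableSet_Icc).2 (by
    rw [IntegrableOn, Measure.restrict_restrict measurableSet_Icc]
    refine (integrableOn_const (by
      refine (lt_of_le_of_lt (measure_mono Set.inter_subset_left) ?_).ne
      simp)))), integral_indicator measurableSet_Icc]
  rw [Measure.restrict_restrict measurableSet_Icc]
  have hset : Set.Icc (1 - f) 1 ∩ Set.Ioc (0 : ℝ) 1 = Set.Icc (1 - f) 1 := by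
    apply Set.inter_eq_left.2
    rintro x ⟨hx1, hx2⟩
    exact ⟨by linarith, hx2⟩
  rw [hset]
  simp only [integral_const, smul_eq_mul, mul_one, measureReal_def,
    Measure.restrict_apply MeasurableSet.univ, Set.univ_inter, Real.volume_Ioc, Real.volume_Icc]
  rw [show (1 : ℝ) - (1 - f) = f by ring, ENNReal.toReal_ofReal h0]
  simp
  linarith

variable {n : ℕ} [NeZero n]

theorem dst_eq (α β γ δ : ZMod n → ℕ) (e : Con n) :
    (dst α β γ δ e).2 = (src α β γ δ e).2 + ((shift α β γ δ e : ℤ) : ZMod n) := by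
  obtain ⟨k, t⟩ := e
  cases k <;> simp [dst, src, shift, sub_eq_add_neg]

theorem shift_val (α β γ δ : ZMod n → ℕ) (e : Con n) : ∃ m : ℤ,
    ((dst α β γ δ e).2.val : ℤ) - ((src α β γ δ e).2.val : ℤ) = shift α β γ δ e + m * n := by
  have h : (((dst α β γ δ e).2.val : ℤ) - ((src α β γ δ e).2.val : ℤ) - shift α β γ δ e : ℤ) =
      ((((dst α β γ δ e).2.val : ℤ) - ((src α β γ δ e).2.val : ℤ) - shift α β γ δ e : ℤ)) := rfl
  have hz : ((((dst α β γ δ e).2.val : ℤ) - ((src α β γ δ e).2.val : ℤ) -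
      shift α β γ δ e : ℤ) : ZMod n) = 0 := by
    push_cast
    rw [ZMod.natCast_zmod_val, ZMod.natCast_zmod_val, dst_eq]
    ring
  rw [ZMod.intCast_zmod_eq_zero_iff_dvd] at hz
  obtain ⟨m, hm⟩ := hz
  exact ⟨m, by linarith [mul_comm (n : ℤ) m]⟩

/-- The rounded potentials. -/
noncomputable def rnd (π : Node n → ℝ) (K : ℤ) (τ : ℝ) (v : Node n) : ℝ :=
  ((⌊(π v + K * v.2.val / n) + τ⌋ : ℤ) : ℝ) - K * v.2.val / n

theorem rnd_mem {α β γ δ : ZMod n → ℕ} (hn : 2 ≤ n)
    (hab : Bounds n α β) (hgd : Bounds n γ δ) (ma : WeaklyMonotone n α)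
    (mb : WeaklyMonotone n β) (mg : WeaklyMonotone n γ) (md : WeaklyMonotone n δ)
    (π : Node n → ℝ) (K : ℤ) (hs : ∀ e, 0 ≤ slack α β γ δ (Q π K) e) (τ : ℝ) :
    Q (rnd π K τ) K ∈ Z n α β γ δ := by
  have hn' : (n : ℝ) ≠ 0 := by exact_mod_cast NeZero.ne n
  apply mem_of_slack_nonneg hn hab hgd ma mb mg md
  · intro t
    refine ⟨⌊(π (false, t) + K * t.val / n) + τ⌋ - ⌊(π (true, t) + K * t.val / n) + τ⌋, ?_⟩
    simp only [Q, rnd]
    push_cast
    ring
  · intro t
    rcases val_sub_one hn t with ⟨_, hv⟩ | ⟨h0, hv⟩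
    · refine ⟨⌊(π (false, t) + K * t.val / n) + τ⌋ -
        ⌊(π (false, t - 1) + K * (t - 1).val / n) + τ⌋, ?_⟩
      simp only [Q, rnd]
      rw [hv]
      push_cast
      ring
    · refine ⟨⌊(π (false, t) + K * t.val / n) + τ⌋ -
        ⌊(π (false, t - 1) + K * (t - 1).val / n) + τ⌋ + K, ?_⟩
      simp only [Q, rnd]
      rw [hv, h0]
      simp only [ZMod.val_zero]
      rw [Nat.cast_sub (by omega)]
      push_cast
      field_simp
      ring
  · intro e
    have h := hs e
    rw [slack_Q hn hab hgd ma mb mg md] at h ⊢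
    obtain ⟨m, hm⟩ := shift_val α β γ δ e
    have hmR : ((dst α β γ δ e).2.val : ℝ) - ((src α β γ δ e).2.val : ℝ) =
        (shift α β γ δ e : ℤ) + m * n := by exact_mod_cast hm
    set D := (dst α β γ δ e) with hD
    set S := (src α β γ δ e) with hS
    have hKm : (K : ℝ) * (shift α β γ δ e : ℤ) / n =
        K * D.2.val / n - K * S.2.val / n - K * m := by
      have : ((shift α β γ δ e : ℤ) : ℝ) = (D.2.val : ℝ) - S.2.val - m * n := by linarith
      rw [this]
      field_simp
    rw [hKm] at h ⊢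
    have hle : (π D + K * D.2.val / n) + τ ≤
        (π S + K * S.2.val / n) + τ + ((cost e + K * m : ℤ) : ℝ) := by
      push_cast; linarith
    have hfl := Int.floor_mono hle
    rw [Int.floor_add_intCast] at hfl
    have hflR : ((⌊(π D + K * D.2.val / n) + τ⌋ : ℤ) : ℝ) ≤
        (⌊(π S + K * S.2.val / n) + τ⌋ : ℤ) + ((cost e : ℤ) : ℝ) + K * m := by
      have : ((⌊(π D + K * D.2.val / n) + τ⌋ : ℤ) : ℝ) ≤
        ((⌊(π S + K * S.2.val / n) + τ⌋ + (cost e + K * m) : ℤ) : ℝ) := by exact_mod_cast hfl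
      push_cast at this
      linarith
    simp only [rnd]
    linarith

theorem finite_Z (α β γ δ : ZMod n → ℕ) : (Z n α β γ δ).Finite := by
  have : (Set.univ.pi (fun _ : ZMod n => ({0, 1} : Set ℝ))).Finite :=
    Set.Finite.pi (fun _ => Set.toFinite _)
  refine (this.prod this).subset ?_
  rintro p ⟨h, -⟩
  simp only [Set.mem_prod, Set.mem_pi, Set.mem_univ, true_implies, Set.mem_insert_iff,
    Set.mem_singleton_iff]
  exact ⟨fun t => (h t).1, fun t => (h t).2⟩

/-- The slice `∑ z = K`, `K` an integer, of `P` is contained in the convex hull of `Z`. -/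
theorem slice_mem {α β γ δ : ZMod n → ℕ} (hn : 2 ≤ n)
    (hab : Bounds n α β) (hgd : Bounds n γ δ) (ma : WeaklyMonotone n α)
    (mb : WeaklyMonotone n β) (mg : WeaklyMonotone n γ) (md : WeaklyMonotone n δ)
    (π : Node n → ℝ) (K : ℤ) (hs : ∀ e, 0 ≤ slack α β γ δ (Q π K) e) :
    Q π K ∈ convexHull ℝ (Z n α β γ δ) := by
  have hmeas : ∀ v : Node n, Measurable (fun τ : ℝ => rnd π K τ v) := by
    intro v
    unfold rnd
    exact ((measurable_from_top.comp (Int.measurable_floor.comp
      (measurable_const.add measurable_id)))).sub_const _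
  have hprob : IsProbabilityMeasure (volume.restrict (Set.Ioc (0 : ℝ) 1)) :=
    ⟨by simp⟩
  have hf : Measurable (fun τ : ℝ => Q (rnd π K τ) (K : ℝ)) := by
    refine Measurable.prodMk (measurable_pi_iff.2 fun t => ?_) (measurable_pi_iff.2 fun t => ?_)
    · exact (hmeas _).sub (hmeas _)
    · exact ((hmeas _).sub (hmeas _)).add_const _
  have hmem : ∀ τ : ℝ, Q (rnd π K τ) (K : ℝ) ∈ Z n α β γ δ :=
    rnd_mem hn hab hgd ma mb mg md π K hs
  have hint : Integrable (fun τ : ℝ => Q (rnd π K τ) (K : ℝ))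
      (volume.restrict (Set.Ioc (0 : ℝ) 1)) := by
    refine Integrable.of_bound hf.aestronglyMeasurable 1 (Filter.Eventually.of_forall fun τ => ?_)
    have h := (hmem τ).1
    rw [Prod.norm_def, max_le_iff]
    constructor
    · rw [pi_norm_le_iff_of_nonneg zero_le_one]
      intro t
      rcases (h t).1 with h' | h' <;> rw [h'] <;> simp
    · rw [pi_norm_le_iff_of_nonneg zero_le_one]
      intro t
      rcases (h t).2 with h' | h' <;> rw [h'] <;> simp
  have key := Convex.integral_mem (convex_convexHull ℝ (Z n α β γ δ))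
    ((finite_Z α β γ δ).isClosed_convexHull ℝ)
    (Filter.Eventually.of_forall fun τ => subset_convexHull ℝ _ (hmem τ)) hint
  have hintv : ∀ v : Node n, IntegrableOn (fun τ : ℝ => rnd π K τ v) (Set.Ioc (0 : ℝ) 1) := by
    intro v
    refine Integrable.of_bound (hmeas v).aestronglyMeasurable (|π v| + 3)
      ((ae_restrict_iff' measurableSet_Ioc).2 (Filter.Eventually.of_forall fun τ hτ => ?_))
    unfold rnd
    rw [Real.norm_eq_abs, abs_le]
    have h1 := Int.floor_le ((π v + K * v.2.val / n) + τ)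
    have h2 := Int.lt_floor_add_one ((π v + K * v.2.val / n) + τ)
    have h3 := hτ.1
    have h4 := hτ.2
    have h5 := neg_abs_le (π v)
    have h6 := le_abs_self (π v)
    constructor <;> linarith
  have hval : ∀ v : Node n, ∫ τ in Set.Ioc (0 : ℝ) 1, rnd π K τ v = π v := by
    intro v
    unfold rnd
    have hi : IntegrableOn (fun τ : ℝ => ((⌊(π v + K * v.2.val / n) + τ⌋ : ℤ) : ℝ))
        (Set.Ioc (0 : ℝ) 1) := by
      have := (hintv v).add (integrable_const (K * v.2.val / n : ℝ))
      refine this.congr (Filter.Eventually.of_forall fun τ => ?_)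
      simp [rnd]
    rw [integral_sub hi (integrable_const _), integral_floor]
    simp
  have heq : ∫ τ in Set.Ioc (0 : ℝ) 1, Q (rnd π K τ) (K : ℝ) = Q π K := by
    refine Prod.ext (funext fun t => ?_) (funext fun t => ?_)
    · have := (((ContinuousLinearMap.proj (R := ℝ) (φ := fun _ : ZMod n => ℝ) t).comp
        (ContinuousLinearMap.fst ℝ (ZMod n → ℝ) (ZMod n → ℝ)))).integral_comp_comm hint
      simp only [ContinuousLinearMap.comp_apply, ContinuousLinearMap.coe_fst',
        ContinuousLinearMap.proj_apply] at this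
      rw [← this]
      simp only [Q]
      rw [integral_sub (hintv _) (hintv _), hval, hval]
    · have := (((ContinuousLinearMap.proj (R := ℝ) (φ := fun _ : ZMod n => ℝ) t).comp
        (ContinuousLinearMap.snd ℝ (ZMod n → ℝ) (ZMod n → ℝ)))).integral_comp_comm hint
      simp only [ContinuousLinearMap.comp_apply, ContinuousLinearMap.coe_snd',
        ContinuousLinearMap.proj_apply] at this
      rw [← this]
      simp only [Q]
      have h1 : ∫ τ in Set.Ioc (0 : ℝ) 1,
          (rnd π K τ (false, t) - rnd π K τ (false, t - 1) + (K : ℝ) / n) =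
          (∫ τ in Set.Ioc (0 : ℝ) 1, (rnd π K τ (false, t) - rnd π K τ (false, t - 1))) +
          ∫ τ in Set.Ioc (0 : ℝ) 1, (K : ℝ) / n :=
        integral_add ((hintv _).sub (hintv _)) (integrable_const _)
      rw [h1, integral_sub (hintv _) (hintv _), hval, hval]
      simp
  rw [heq] at key
  exact key

end Pool.Agent.CyDes
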